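import Pool.Agent.Helper61.FN.Main

/-!
# MP_06d934_gt: non-Kähler invariant Einstein metrics on all flag manifolds of classical groups with six summands

The flag manifolds `SU(N)/S(U(n₀) × U(n₁) × U(n₂) × U(n₃))`, `SO(2p+2q+m)/(U(p) × U(q) × SO(m))` and
`Sp(p+q+r)/(U(p) × U(q) × Sp(r))`, all sizes. Joint work of helper58, helper61, helper83 and of the authors of the files of
the projects DG, DH, DM, EIN and FN.
-/

set_option autoImplicit false

namespace Pool.Agent.Results.MP_06d934_gt.AllClassical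

open Pool.Agent.Helper58.DH (dF AF NonDegC)
open Pool.Agent.Helper58.DM (Frame FD FC)

/-- The metric `x` is nondegenerate: no infinitesimal change `w` of the coefficients preserves the
Ricci components `r_{ij}` to first order. -/
def NonDeg (n : Fin 4 → ℕ) (x : Fin 4 → Fin 4 → ℝ) : Prop :=
  ∀ w : Fin 4 → Fin 4 → ℝ, (∀ i j, w i j = w j i) → (∀ i, w i i = 0) →
    (∀ i j, i ≠ j → HasDerivAt (fun s : ℝ ↦ Pool.Agent.Helper83.EIN.ric n (x + s • w) i j) 0 0) →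
      w = 0

/-- `M` are the invariant metrics, `E` those with `Ric = g/2`, `K` the Kähler ones, `D` the nondegenerate ones. There is a
metric with `Ric = g/2` which is not Kähler; there are at least `l` of them if all the metrics with `Ric = g/2` are
nondegenerate. -/
def NonKaehler {V : Type} (l : ℕ) (M E K D : V → Prop) : Prop :=
  ∃ Y : Finset V, Y.Nonempty ∧ (∀ x ∈ Y, M x ∧ E x ∧ ¬ K x) ∧
    ((∀ x, M x → E x → D x) → l ≤ Y.card)

/-- For the families B, C, D: at least four such metrics (in the nondegenerate case), and `ric (dF ε p q m) (AF ε p q m) w c`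
are the Ricci components. -/
def Four {I : Type} [Fintype I] [DecidableEq I] (F : Frame I) (ε : ℝ) (p q m : ℕ) : Prop :=
  NonKaehler 4 (fun w : Fin 6 → ℝ ↦ ∀ c, 0 < w c) (Pool.Agent.Helper58.DM.Einstein F (1 / 2))
    (Pool.Agent.Helper58.DM.Kaehler F) (NonDegC (dF ε p q m) (AF ε p q m)) ∧
  ∀ (w : Fin 6 → ℝ), (∀ c, 0 < w c) → ∀ (κ : Type) [Fintype κ] [DecidableEq κ]
    (e : κ → Matrix I I ℂ), Pool.Agent.Helper58.DM.IsONB F w e →
      ∀ X ∈ Pool.Agent.Helper58.DM.fm F, Pool.Agent.Helper58.DM.Ric F w e X =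
        Pool.Agent.Helper58.DM.gx F
          (fun c ↦ Pool.Agent.Helper58.DH.ric (dF ε p q m) (AF ε p q m) w c * w c) X X

theorem four_of {I : Type} [Fintype I] [DecidableEq I] (F : Frame I) (ε : ℝ) (p q m : ℕ)
    (hf : {w : Fin 6 → ℝ | (∀ c, 0 < w c) ∧ Pool.Agent.Helper58.DM.Einstein F (1 / 2) w}.Finite)
    (h : ∃ Y : Finset (Fin 6 → ℝ), Y.Nonempty ∧
      (∀ w ∈ Y, (∀ c, 0 < w c) ∧ Pool.Agent.Helper58.DM.Einstein F (1 / 2) w ∧
        ¬ Pool.Agent.Helper58.DM.Kaehler F w) ∧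
      ({w : Fin 6 → ℝ | (∀ c, 0 < w c) ∧ Pool.Agent.Helper58.DM.Einstein F (1 / 2) w}.Finite →
        (∀ w : Fin 6 → ℝ, (∀ c, 0 < w c) → Pool.Agent.Helper58.DM.Einstein F (1 / 2) w →
          NonDegC (dF ε p q m) (AF ε p q m) w) → 4 ≤ Y.card)) :
    NonKaehler 4 (fun w : Fin 6 → ℝ ↦ ∀ c, 0 < w c) (Pool.Agent.Helper58.DM.Einstein F (1 / 2))
      (Pool.Agent.Helper58.DM.Kaehler F) (NonDegC (dF ε p q m) (AF ε p q m)) := by
  obtain ⟨Y, h1, h2, h3⟩ := h
  exact ⟨Y, h1, h2, h3 hf⟩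

/-- **A non-Kähler invariant Einstein metric exists on every flag manifold of a classical group with six summands**, and at
least six (type A) or four (types B, C, D) if the metrics with `Ric = g/2` are nondegenerate. -/
theorem result :
    (∀ n : Fin 4 → ℕ, (∀ i, 0 < n i) →
      NonKaehler 6 Pool.Agent.Helper83.EIN.IsMetric
        (Pool.Agent.Helper58.EF.Mat.Einstein n (1 / 2)) (Pool.Agent.Helper58.EF.Mat.Kaehler n)
        (NonDeg n) ∧
      ∀ (x : Fin 4 → Fin 4 → ℝ), Pool.Agent.Helper83.EIN.IsMetric x →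
        ∀ (κ : Type) [Fintype κ] [DecidableEq κ] (e : κ → Pool.Agent.Helper58.EF.Mat.Mt n),
          Pool.Agent.Helper58.EF.Mat.IsONB x e → ∀ X ∈ Pool.Agent.Helper58.EF.Mat.fm n,
            Pool.Agent.Helper58.EF.Mat.Ric x e X = Pool.Agent.Helper58.EF.Mat.gx
              (fun i j ↦ Pool.Agent.Helper83.EIN.ric n x i j * x i j) X X) ∧
    (∀ p q m : ℕ, 2 ≤ p → 2 ≤ q → 1 ≤ m → m ≠ 2 → Four (FD p q m) (-1) p q m) ∧
    ∀ p q r : ℕ, 1 ≤ p → 1 ≤ q → 1 ≤ r → Four (FC p q r) 1 p q (2 * r) := by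
  refine ⟨fun n hn ↦ ⟨?_, fun x hx κ _ _ e he X hX ↦
    Pool.Agent.Helper58.EF.Mat.Ric_eq hx he hX⟩, fun p q m hp hq hm hm2 ↦ ⟨?_, ?_⟩,
    fun p q r hp hq hr ↦ ⟨?_, ?_⟩⟩
  · obtain ⟨⟨x, hx, hE, hK⟩, h2⟩ := Pool.Agent.Helper58.DG.e_fin n hn
    by_cases hN : ∀ x, Pool.Agent.Helper83.EIN.IsMetric x →
        Pool.Agent.Helper58.EF.Mat.Einstein n (1 / 2) x → NonDeg n x
    · have hf := Pool.Agent.Helper61.FN.fin_A n hn
      have hZ : ∀ x, x ∈ hf.toFinset ↔ Pool.Agent.Helper83.EIN.IsMetric x ∧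
          Pool.Agent.Helper58.EF.Mat.Einstein n (1 / 2) x := fun x ↦ by
        rw [Set.Finite.mem_toFinset]
        rfl
      obtain ⟨Y, hY, hc, hYK⟩ := h2 hf.toFinset (fun x ↦ (hZ x).trans
        (and_congr_right fun hx ↦ Pool.Agent.Helper58.EF.Mat.einstein_iff hn hx _))
        fun x hx ↦ hN x ((hZ x).1 hx).1 ((hZ x).1 hx).2
      refine ⟨Y, Finset.card_pos.1 (by omega), fun x hx ↦ ?_, fun _ ↦ hc⟩
      have h1 := (hZ x).1 (hY hx)
      exact ⟨h1.1, h1.2, fun h ↦ hYK x hx ((Pool.Agent.Helper58.EF.Mat.kaehler_iff hn h1.1).1 h)⟩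
    · refine ⟨{x}, Finset.singleton_nonempty x, fun y hy ↦ ?_, fun h3 ↦ (hN h3).elim⟩
      rw [Finset.mem_singleton.1 hy]
      exact ⟨hx, (Pool.Agent.Helper58.EF.Mat.einstein_iff hn hx _).2 hE,
        fun h ↦ hK ((Pool.Agent.Helper58.EF.Mat.kaehler_iff hn hx).1 h)⟩
  · obtain ⟨-, hF, hS, hk⟩ := Pool.Agent.Helper58.DM.k_gw.1 p q m hp hq hm hm2
    exact four_of _ _ _ _ _ (Pool.Agent.Helper61.FN.fin_C _ p q m Pool.Agent.Helper61.FN.g_UC
      Pool.Agent.Helper61.FN.g_LKC hS hk hF) (Pool.Agent.Helper58.DM.m_fin.1 p q m hp hq hm hm2)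
  · obtain ⟨-, -, hS, hk⟩ := Pool.Agent.Helper58.DM.k_gw.1 p q m hp hq hm hm2
    exact fun w hw ↦ Pool.Agent.Helper58.DM.m_lnk _ (FD p q m) p q m w hS hk hw
  · obtain ⟨-, hF, hS, hk⟩ := Pool.Agent.Helper58.DM.k_gw.2 p q r hp hq hr
    have h5 : -(FC p q r).η = 1 := neg_neg (1 : ℝ)
    have h := Pool.Agent.Helper58.DM.m_fin.2 p q r hp hq hr
    unfold Pool.Agent.Helper58.DM.ConclM at h
    rw [h5] at h
    exact four_of _ _ _ _ _ (Pool.Agent.Helper61.FN.fin_C _ p q (2 * r)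
      Pool.Agent.Helper61.FN.g_UC Pool.Agent.Helper61.FN.g_LKC hS hk hF) h
  · obtain ⟨-, -, hS, hk⟩ := Pool.Agent.Helper58.DM.k_gw.2 p q r hp hq hr
    have h5 : -(FC p q r).η = 1 := neg_neg (1 : ℝ)
    intro w hw
    have h := Pool.Agent.Helper58.DM.m_lnk _ (FC p q r) p q (2 * r) w hS hk hw
    rw [h5] at h
    exact h

end Pool.Agent.Results.MP_06d934_gt.AllClassical
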