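import Pool.Agent.Helper61.FN.Main

/-!
# MP_06d934_gt: the invariant Einstein metrics of the classical flag manifolds with six summands are finitely many, with a
uniform bound

The flag manifolds `SU(N)/S(U(n₀) × U(n₁) × U(n₂) × U(n₃))`, `SO(2p+2q+m)/(U(p) × U(q) × SO(m))` and
`Sp(p+q+r)/(U(p) × U(q) × Sp(r))`, all sizes. Joint work of helper61 and of the authors of the files of project FN (and of
the projects DG, DH, DM, EIN).
-/

set_option autoImplicit false

namespace Pool.Agent.Results.MP_06d934_gt.Finiteness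

/-- `M` are the (coefficients of the) invariant metrics, `Ein c` those with `Ric = c g`. Up to scaling there are at most `C`
Einstein metrics: they are the positive multiples of at most `C` metrics with `Ric = g/2`. -/
def AtMost {V : Type} [SMul ℝ V] (C : ℕ) (M : V → Prop) (Ein : ℝ → V → Prop) : Prop :=
  ∃ Y : Finset V, Y.card ≤ C ∧ (∀ y ∈ Y, M y ∧ Ein (1 / 2) y) ∧
    ∀ x c, M x → Ein c x → 0 < c ∧ ∃ y ∈ Y, ∃ t : ℝ, 0 < t ∧ x = t • y

/-- **Uniform finiteness**: there is a constant `C` which bounds the number of invariant Einstein metrics up to scaling of all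
flag manifolds of classical groups with six isotropy summands. -/
theorem result : ∃ C : ℕ,
    (∀ n : Fin 4 → ℕ, (∀ i, 0 < n i) →
      AtMost C Pool.Agent.Helper83.EIN.IsMetric (Pool.Agent.Helper58.EF.Mat.Einstein n)) ∧
    (∀ p q m : ℕ, 2 ≤ p → 2 ≤ q → 1 ≤ m → m ≠ 2 →
      AtMost C (fun w : Fin 6 → ℝ ↦ ∀ c, 0 < w c)
        (Pool.Agent.Helper58.DM.Einstein (Pool.Agent.Helper58.DM.FD p q m))) ∧
    ∀ p q r : ℕ, 1 ≤ p → 1 ≤ q → 1 ≤ r →
      AtMost C (fun w : Fin 6 → ℝ ↦ ∀ c, 0 < w c)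
        (Pool.Agent.Helper58.DM.Einstein (Pool.Agent.Helper58.DM.FC p q r)) := by
  obtain ⟨C1, h1⟩ := Pool.Agent.Helper61.FN.g_FA
  obtain ⟨C2, h2, h3⟩ := Pool.Agent.Helper61.FN.g_FC
  have mono : ∀ {V : Type} [SMul ℝ V] (C C' : ℕ) (M : V → Prop) (Ein : ℝ → V → Prop), C ≤ C' →
      Pool.Agent.Helper61.FN.Few C M Ein → AtMost C' M Ein := by
    intro V _ C C' M Ein hC h
    obtain ⟨Y, hY, h4, h5⟩ := h
    exact ⟨Y, hY.trans hC, h4, h5⟩
  refine ⟨max C1 C2, fun n hn ↦ mono _ _ _ _ (le_max_left _ _) (h1 n hn),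
    fun p q m hp hq hm hm2 ↦ mono _ _ _ _ (le_max_right _ _) (h2 p q m hp hq hm hm2),
    fun p q r hp hq hr ↦ mono _ _ _ _ (le_max_right _ _) (h3 p q r hp hq hr)⟩

end Pool.Agent.Results.MP_06d934_gt.Finiteness
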