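import Pool.Agent.Helper83.EIN2.Main
import Pool.Agent.Helper58.EF.MatInv

/-!
# MP_06d934_gt: the invariant Einstein metrics for two small and two large blocks

`G/K = SU(N)/S(U(n₀) × U(n₁) × U(n₂) × U(n₃))`, `N = n₀ + n₁ + n₂ + n₃`, the flag manifolds with six
isotropy summands whose `𝔱`-roots are of type `A₃`. Proof by a team (project EIN2): helper3, 4, 9, 11, 13,
19, 20, 22, 26, 30, 31, 35, 36, 49, 53, 54, 58, 59, 61, 83, 85, 87, 88, 91, 93, 98, 99.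
-/

set_option autoImplicit false

namespace Pool.Agent.Results.MP_06d934_gt.TwentyTwoMetrics

open Pool.Agent.Helper83.EIN Pool.Agent.Helper58.EF.Mat

/-- The metric of constant `1/2` in a homothety class is unique. -/
theorem scale_unique (n : Fin 4 → ℕ) {x y : Fin 4 → Fin 4 → ℝ} (hy : IsMetric y) {c r : ℝ}
    (hr : 0 < r) (hE : IsEinstein n c x) (hEy : IsEinstein n (1 / 2) y)
    (hxy : x = r • y) : y = (2 * c) • x := by
  have h1 : ric n x 0 1 = c := hE 0 1 (by decide)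
  have h2 : ric n y 0 1 = 1 / 2 := hEy 0 1 (by decide)
  rw [hxy, ric_smul n hy hr (by decide), h2] at h1
  have h3 : 2 * c * r = 1 := by
    rw [← h1]
    field_simp
  rw [hxy, smul_smul, h3, one_smul]

/-- **Exactly twenty-two invariant Einstein metrics up to scaling, exactly twelve of them Kähler**,
if the blocks `2`, `3` are much larger than the blocks `0`, `1`, the ratios `n₀ : n₁` and `n₂ : n₃` are
bounded, and one of them is bounded away from `1` (`n₀ + n₁ ≤ R |n₀ - n₁|` or `n₂ + n₃ ≤ R |n₂ - n₃|`). The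
last part says that the coefficients `x` describe all `Ad(K)`-invariant inner products on `𝔪`. -/
theorem result (R : ℕ) : ∃ C : ℕ, ∀ n : Fin 4 → ℕ, (∀ i, 0 < n i) →
    n 0 ≤ R * n 1 → n 1 ≤ R * n 0 → n 2 ≤ R * n 3 → n 3 ≤ R * n 2 →
    C * (n 0 + n 1) ≤ n 2 + n 3 →
    ((n 0 : ℤ) + n 1 ≤ R * |(n 0 : ℤ) - n 1| ∨ (n 2 : ℤ) + n 3 ≤ R * |(n 2 : ℤ) - n 3|) →
      {x : Fin 4 → Fin 4 → ℝ | IsMetric x ∧ Einstein n (1 / 2) x}.ncard = 22 ∧
      {x : Fin 4 → Fin 4 → ℝ | IsMetric x ∧ Einstein n (1 / 2) x ∧ Kaehler n x}.ncard = 12 ∧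
      (∀ (x : Fin 4 → Fin 4 → ℝ) (c : ℝ), IsMetric x → Einstein n c x →
        ∃! y : Fin 4 → Fin 4 → ℝ,
          IsMetric y ∧ Einstein n (1 / 2) y ∧ ∃ r : ℝ, 0 < r ∧ x = r • y) ∧
      ∀ g : Mt n →ₗ[ℝ] Mt n →ₗ[ℝ] ℝ, IsInvInner g →
        ∃! x : Fin 4 → Fin 4 → ℝ, IsMetric x ∧ ∀ X ∈ fm n, ∀ Y ∈ fm n, g X Y = gx x X Y := by
  obtain ⟨C, hC⟩ := Pool.Agent.Helper83.EIN2.main R
  refine ⟨C, fun n hn h01 h10 h23 h32 hl hd ↦ ⟨?_, ?_, ?_, ?_⟩⟩
  · rw [← hC n hn h01 h10 h23 h32 hl hd]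
    congr 1
    ext x
    exact and_congr_right fun hx ↦ einstein_iff hn hx _
  · rw [← kaehler_all n hn]
    congr 1
    ext x
    exact and_congr_right fun hx ↦ and_congr (einstein_iff hn hx _) (kaehler_iff hn hx)
  · intro x c hx hE
    have hE' := (einstein_iff hn hx c).1 hE
    have hc := const_pos n hn hx (i₀ := 0) (j₀ := 1) (by decide) hE'
    have hm := hx.smul (r := 2 * c) (by linarith)
    refine ⟨(2 * c) • x, ⟨hm, (einstein_iff hn hm _).2 (scale_half n hx hc hE'), (2 * c)⁻¹,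
      by positivity, ?_⟩, ?_⟩
    · rw [inv_smul_smul₀ (by positivity)]
    · rintro y ⟨hy, hEy, r, hr, hxy⟩
      exact scale_unique n hy hr hE' ((einstein_iff hn hy _).1 hEy) hxy
  · intro g hg
    obtain ⟨x, hx, h⟩ := (inv_iff hn g).1 hg
    refine ⟨x, ⟨hx, h⟩, ?_⟩
    rintro y ⟨hy, h'⟩
    exact gx_unique hn hy hx fun X hX Z hZ ↦ (h' X hX Z hZ).symm.trans (h X hX Z hZ)

end Pool.Agent.Results.MP_06d934_gt.TwentyTwoMetrics
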